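import Mathlib
import Pool.Agent.Zk12.FG.Stm

/-!
# Birational sections of the curves `t_0 y² = ∏ (x - e_i)` over `ℚ(t_0, …, t_n)`, `e_i ∈ ℚ(t_1, …, t_n)`:
statements of the parts (project GT)
-/

set_option autoImplicit false
set_option linter.all false

namespace Pool.Agent.Zk12.GT

open Pool.Agent.TH954 Pool.Agent.Zk12.FG

/-- **part S (symbols)**: the classes `c β` of the functions `x - β` along a section of `Gal(Ω/F)`
satisfy `(c β / (γ - β), c γ / (β - γ)) = 0` in the Brauer group of `k`, because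
`(x - β) / (γ - β) + (x - γ) / (β - γ) = 1` -/
def S_SYM : Prop := ∀ (k F Ω B : Type) [Field k] [CharZero k] [Field F] [Field Ω] [Field B]
  [Algebra k F] [Algebra F Ω] [Algebra k Ω] [Algebra k B] [IsScalarTower k F Ω] [IsAlgClosure F Ω]
  [IsAlgClosure k B] (s : GalSection k F Ω B) (x : F), (∀ c : k, x ≠ algebraMap k F c) →
  ∃ c : k → k, (∀ β, c β ≠ 0) ∧
    (∀ β, ∃ b : Ω, (∀ g, s.s g b = b) ∧
      algebraMap F Ω (x - algebraMap k F β) = algebraMap k Ω (c β) * b ^ 2) ∧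
    ∀ β γ, β ≠ γ → ∃ u v w : k, (u ≠ 0 ∨ v ≠ 0 ∨ w ≠ 0) ∧
      u ^ 2 = c β / (γ - β) * v ^ 2 + c γ / (β - γ) * w ^ 2

/-- in no finite extension `κ` of `k₁` every `β ∈ k₁` satisfies: `(a - β) (b - β)` or
`(β - l) (a - l)` is a square -/
def Star (k₁ : Type) [Field k₁] : Prop := ∀ (κ : Type) [Field κ] [Algebra k₁ κ],
  FiniteDimensional k₁ κ → ∀ a b l : k₁, a ≠ b → a ≠ l → b ≠ l → ∃ β : k₁,
    ¬ IsSquare (algebraMap k₁ κ ((a - β) * (b - β))) ∧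
    ¬ IsSquare (algebraMap k₁ κ ((β - l) * (a - l)))

/-- **part V**: embeddings of `ℚ(t_1, …, t_n)` in `ℚ_p` for large `p` at which the elements of a given
finite set are units -/
def S_UNIT : Prop := ∀ (n : ℕ) (k₁ : Type) [Field k₁] [Algebra ℚ k₁] (t : Fin n → k₁), RatFn ℚ t →
  ∀ S : Finset k₁, 0 ∉ S → ∀ N : ℕ, ∃ (p : ℕ) (_ : Fact p.Prime) (φ : k₁ →+* ℚ_[p]), N < p ∧
    ∀ s ∈ S, ‖φ s‖ = 1

/-- **part T** -/
def S_STAR : Prop := ∀ (n : ℕ) (k₁ : Type) [Field k₁] [Algebra ℚ k₁] (t : Fin n → k₁), RatFn ℚ t →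
  Star k₁

/-- **part P (polynomials)**: the classes come, modulo 2, from one of the points `x = e_i` -/
def S_POL : Prop := ∀ (k₁ k : Type) [Field k₁] [CharZero k₁] [Field k] [Algebra k₁ k], Star k₁ →
  ∀ t₀ : k, Transcendental k₁ t₀ → IntermediateField.adjoin k₁ {t₀} = ⊤ →
  ∀ (K : Type) [Fintype K] (e : K → k₁), Function.Injective e → Even (Fintype.card K) →
  (∀ i j, i ≠ j → ∃ l l', l ≠ i ∧ l ≠ j ∧ l' ≠ i ∧ l' ≠ j ∧
    ¬ IsSquare ((e i - e l) * (e i - e l') * ((e j - e l) * (e j - e l')))) →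
  ∀ c : k₁ → k, (∀ β, c β ≠ 0) → (∃ q : k, ∏ m, c (e m) = t₀ * q ^ 2) →
  (∀ β γ : k₁, β ≠ γ → ∃ u v w : k, (u ≠ 0 ∨ v ≠ 0 ∨ w ≠ 0) ∧
    u ^ 2 = c β / algebraMap k₁ k (γ - β) * v ^ 2 + c γ / algebraMap k₁ k (β - γ) * w ^ 2) →
  ∃ i, ∀ l l', l ≠ i → l' ≠ i →
    IsSquare (c (e l) * c (e l') * algebraMap k₁ k ((e i - e l) * (e i - e l')))

end Pool.Agent.Zk12.GT
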