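import Mathlib
import Pool.Agent.Zk12.GT.Stm
import Pool.Agent.Zk12.FG.Fin
import Pool.Agent.Zk90.BS.Gp2

/-!
# Sections attached to a branch point modulo 2, over fields of rational functions
-/

set_option autoImplicit false
set_option linter.all false

open Polynomial IntermediateField

namespace Pool.Agent.Zk12.GT

open Pool.Agent.TH954 Pool.Agent.Zk95.BS Pool.Agent.Zk12.FG Pool.Agent.Zk12
open Pool.Agent.Zk94.FG (S_ULT2 ult)

attribute [-instance] DivisionRing.toRatAlgebra SubfieldClass.instSMulRat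
attribute [local instance 1] DivisionRing.toRatAlgebra

/-- the constants of the curve `Γ` -/
def cG (i : Fin 5) : ℚ := if i = 0 then 0 else ((i : ℕ) : ℚ)⁻¹

theorem cG_zero : cG 0 = 0 := if_pos rfl

theorem cG_succ (j : Fin 4) : cG j.succ = ((j : ℕ) + 1 : ℚ)⁻¹ := by
  rw [cG, if_neg (Fin.succ_ne_zero j), Fin.val_succ]
  push_cast
  rfl

theorem cG_pos (j : Fin 4) : ((j : ℕ) + 1 : ℚ) ≠ 0 := by positivity

/-- all sections of the function field of the curve `Γ` over `ℚ` arise from points with `x = 0` -/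
theorem gam_geo (F₁ : Type) [Field F₁] [Algebra ℚ F₁] (x : F₁) (hx : Transcendental ℚ x)
    (hF : Algebra.IsAlgebraic (IntermediateField.adjoin ℚ {x}) F₁)
    (hsq : ∀ l l' : Fin 5, l ≠ 0 → l' ≠ 0 → ∃ q : F₁, q ^ 2 = (x - algebraMap ℚ F₁ (cG l)) *
      (x - algebraMap ℚ F₁ (cG l')) * algebraMap ℚ F₁ ((cG 0 - cG l) * (cG 0 - cG l'))) :
    AllGeo ℚ F₁ x {0} := by
  intro Ω₀ B₀ _ _ _ _ _ _ _ _ s
  obtain ⟨O, h1, h2, -⟩ := bir_one Pool.Agent.Zk94.BS.ku2 s hx hF cG 0 (by
      intro l l' h1 h2
      obtain ⟨q, hq⟩ := hsq l l' h1 h2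
      refine ⟨algebraMap F₁ Ω₀ q, fun g => (s.s g).commutes q, ?_⟩
      rw [← map_pow, hq]) (fun j => j.succ) (fun j => Fin.succ_ne_zero j) (by
      intro j
      rw [cG_succ, cG_zero]
      exact inv_ne_zero (cG_pos j)) 1 1 one_ne_zero (by
      intro j
      rw [cG_succ, cG_zero, sub_zero, inv_inv]
      ring)
  exact ⟨O, h2, 0, Finset.mem_singleton_self _, h1⟩

section

variable {k F Ω B : Type} [Field k] [Field F] [Field Ω] [Field B] [Algebra k F] [Algebra F Ω]
  [Algebra k Ω] [Algebra k B] [IsScalarTower k F Ω] [IsAlgClosure F Ω] [IsAlgClosure k B]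

/-- the fixed field -/
def Lx (s : GalSection k F Ω B) : IntermediateField F Ω where
  carrier := {y | ∀ g, s.s g y = y}
  mul_mem' ha hb g := by rw [map_mul, ha g, hb g]
  add_mem' ha hb g := by rw [map_add, ha g, hb g]
  algebraMap_mem' c g := (s.s g).commutes c
  inv_mem' a ha g := by rw [map_inv₀, ha g]

theorem mem_Lx {s : GalSection k F Ω B} {y : Ω} : y ∈ Lx s ↔ ∀ g, s.s g y = y := Iff.rfl

/-- the homomorphism -/
noncomputable def sLh (s : GalSection k F Ω B) : (B ≃ₐ[k] B) →* (Ω ≃ₐ[Lx s] Ω) where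
  toFun := fun g => AlgEquiv.ofRingEquiv (f := (s.s g : Ω ≃+* Ω)) (fun z => z.2 g)
  map_one' := by
    ext z
    change s.s 1 z = z
    rw [map_one]
    rfl
  map_mul' := fun g h => by
    ext z
    change s.s (g * h) z = s.s g (s.s h z)
    rw [map_mul]
    rfl

theorem sLh_apply (s : GalSection k F Ω B) (g : B ≃ₐ[k] B) (z : Ω) : sLh s g z = s.s g z := rfl

theorem sLh_cont (s : GalSection k F Ω B) : Continuous (sLh s) := by
    have halg : Algebra.IsAlgebraic F Ω := IsAlgClosure.isAlgebraic
    have hch : Algebra.IsAlgebraic (Lx s) Ω := Algebra.IsAlgebraic.tower_top (K := F) (Lx s)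
    refine continuous_of_continuousAt_one _ ?_
    rw [ContinuousAt, map_one, Filter.tendsto_def]
    intro V hV
    rw [krullTopology_mem_nhds_one_iff] at hV
    obtain ⟨E, hE, hEV⟩ := hV
    have hfg : E.FG := IntermediateField.essFiniteType_iff.1 inferInstance
    obtain ⟨T, hT⟩ := hfg
    have h1 : {f : Ω ≃ₐ[F] Ω | ∀ z ∈ T, f z = z} ∈ nhds (1 : Ω ≃ₐ[F] Ω) := by
      rw [krullTopology_mem_nhds_one_iff]
      refine ⟨IntermediateField.adjoin F (T : Set Ω), ?_, ?_⟩
      · exact IntermediateField.finiteDimensional_adjoin fun z _ => (halg.isAlgebraic z).isIntegral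
      · intro f hf z hz
        exact (mem_fixingSubgroup_iff _ _).1 hf z (IntermediateField.subset_adjoin _ _ hz)
    have h2 := s.cont.tendsto 1
    rw [map_one] at h2
    refine Filter.mem_of_superset (h2 h1) ?_
    intro g hg
    apply hEV
    refine (IntermediateField.mem_fixingSubgroup_iff _ _).2 ?_
    rw [← hT]
    intro z hz
    have h3 : IntermediateField.adjoin (Lx s) (T : Set Ω) ≤ IntermediateField.fixedField
        (Subgroup.zpowers (sLh s g)) := by
      rw [IntermediateField.adjoin_le_iff]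
      intro y hy
      rw [SetLike.mem_coe, IntermediateField.mem_fixedField_iff]
      intro f hf
      have h4 : sLh s g y = y := hg y hy
      have h5 : sLh s g ∈ MulAction.stabilizer (Ω ≃ₐ[Lx s] Ω) y := h4
      exact (Subgroup.zpowers_le.2 h5) hf
    exact (IntermediateField.mem_fixedField_iff _ _).1 (h3 hz) _ (Subgroup.mem_zpowers _)

/-- the section of the Galois group of the fixed field -/
noncomputable def sL (s : GalSection k F Ω B) : GalSection k (Lx s) Ω B where
  j := s.j
  s := sLh s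
  cont := sLh_cont s
  sec := s.sec

end

/-- **a section over `k = ℚ(t)` attached modulo 2 to the point `x = a` comes from this point** -/
theorem att_geo (hOBS : S_OBS) (hKOE : S_KOEP) (hLOC : S_LOCV) (n : ℕ) (k F Ω B : Type)
    [Field k] [Field F] [Field Ω] [Field B] [Algebra ℚ k] [Algebra k F] [Algebra F Ω] [Algebra k Ω]
    [Algebra k B] [IsScalarTower k F Ω] [IsAlgClosure F Ω] [IsAlgClosure k B] (t : Fin n → k)
    (ht : RatFn ℚ t) (s : GalSection k F Ω B) (x : F) (hx : Transcendental k x)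
    (hF : Algebra.IsAlgebraic (IntermediateField.adjoin k {x}) F) (a : k) (b : Fin 4 → k)
    (hb : ∀ j, b j ≠ a) (z δ : k) (hδ : δ ≠ 0) (hAP : ∀ j : Fin 4, (b j - a)⁻¹ = z + (j : ℕ) * δ)
    (hAt : ∀ j j', ∃ γ : Ω, (∀ g, s.s g γ = γ) ∧ γ ^ 2 = algebraMap F Ω
      ((x - algebraMap k F (b j)) * (x - algebraMap k F (b j')) *
        algebraMap k F ((a - b j) * (a - b j')))) :
    ∃ O : ValuationSubring F, (x - algebraMap k F a)⁻¹ ∉ O ∧ s.ArisesFrom O ∧
      ∀ O' : ValuationSubring F, s.ArisesFrom O' → O' = O := by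
  classical
  haveI : CharZero k := algebraRat.charZero k
  haveI : CharZero F := charZero_of_injective_algebraMap (algebraMap k F).injective
  haveI : CharZero Ω := charZero_of_injective_algebraMap (algebraMap F Ω).injective
  haveI halgΩ : Algebra.IsAlgebraic F Ω := IsAlgClosure.isAlgebraic
  haveI hclΩ : IsAlgClosed Ω := IsAlgClosure.isAlgClosed F
  let L := Lx s
  haveI : IsScalarTower k L Ω := IsScalarTower.of_algebraMap_eq fun c => by
    rw [IsScalarTower.algebraMap_apply k F Ω, IsScalarTower.algebraMap_apply F L Ω,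
      IsScalarTower.algebraMap_apply k F L]
  haveI : Algebra.IsAlgebraic L Ω := Algebra.IsAlgebraic.tower_top (K := F) L
  haveI : IsAlgClosure L Ω := ⟨hclΩ, inferInstance⟩
  letI : Algebra ℚ L := ((algebraMap k L).comp (algebraMap ℚ k)).toAlgebra
  haveI : IsScalarTower ℚ k L := IsScalarTower.of_algebraMap_eq fun _ => rfl
  have hne : ∀ c : k, x - algebraMap k F c ≠ 0 := by
    intro c h
    apply hx
    rw [sub_eq_zero.1 h]
    exact isAlgebraic_algebraMap c
  have hδF : algebraMap k F δ ≠ 0 := (_root_.map_ne_zero _).2 hδ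
  -- the coordinate
  set u : F := ((x - algebraMap k F a)⁻¹ - algebraMap k F z) / algebraMap k F δ + 1 with hu
  have hux : ∀ c : k, u ≠ algebraMap k F c := by
    intro c h
    have h1 : (x - algebraMap k F a)⁻¹ = algebraMap k F ((c - 1) * δ + z) := by
      rw [map_add, map_mul, map_sub, map_one, ← h, hu]
      field_simp
      ring
    by_cases h2 : (c - 1) * δ + z = 0
    · rw [h2, map_zero, inv_eq_zero] at h1
      exact hne a h1
    · apply hne (a + ((c - 1) * δ + z)⁻¹)
      rw [map_add, map_inv₀, ← h1, inv_inv]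
      ring
  have hu0 : u ≠ 0 := by
    have := hux 0
    rwa [map_zero] at this
  set x₀ : F := u⁻¹ with hx₀
  have hxx : x = algebraMap k F a + x₀ / ((1 - x₀) * algebraMap k F δ + algebraMap k F z * x₀) := by
    have h1 : (1 - x₀) * algebraMap k F δ + algebraMap k F z * x₀ =
        x₀ * (x - algebraMap k F a)⁻¹ := by
      have h2 : (x - algebraMap k F a)⁻¹ = (u - 1) * algebraMap k F δ + algebraMap k F z := by
        rw [hu]
        field_simp
        ring
      rw [h2, hx₀]
      field_simp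
    rw [h1]
    have h3 : x₀ ≠ 0 := inv_ne_zero hu0
    field_simp
    ring
  have hxtr : Transcendental k x₀ := by
    intro h
    apply hx
    rw [hxx, div_eq_mul_inv]
    exact (isAlgebraic_algebraMap a).add (h.mul ((((isAlgebraic_one.sub h).mul
      (isAlgebraic_algebraMap δ)).add ((isAlgebraic_algebraMap z).mul h)).inv))
  have hxL : Transcendental k (algebraMap F L x₀) := by
    intro h
    exact hxtr ((isAlgebraic_algebraMap_iff (algebraMap F L).injective).1 h)
  have hxQ : Transcendental ℚ (algebraMap F L x₀) := fun h => hxL (h.tower_top k)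
  -- the square roots
  have hdiff : ∀ j : Fin 4, x₀ - algebraMap k F (algebraMap ℚ k (cG j.succ)) =
      algebraMap k F (algebraMap ℚ k (cG j.succ)) * ((x - algebraMap k F (b j)) /
        (algebraMap k F δ * (algebraMap k F (b j) - algebraMap k F a) *
          (x - algebraMap k F a) * u)) := by
    intro j
    have h1 : algebraMap k F (b j) - algebraMap k F a ≠ 0 := by
      rw [← map_sub, Ne, _root_.map_eq_zero, sub_eq_zero]
      exact hb j
    have h2 := congrArg (algebraMap k F) (hAP j)
    rw [map_inv₀, map_sub, map_add, map_mul, map_natCast] at h2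
    have h3 : algebraMap k F (algebraMap ℚ k (cG j.succ)) = (((j : ℕ) : F) + 1)⁻¹ := by
      rw [cG_succ]
      simp only [map_inv₀, map_add, map_natCast, map_one]
    have h4 : (((j : ℕ) : F) + 1) ≠ 0 := by exact_mod_cast Nat.succ_ne_zero (j : ℕ)
    have h5 := hne a
    have h6 : u = (((j : ℕ) : F) + 1) - (x - algebraMap k F (b j)) /
        (algebraMap k F δ * (algebraMap k F (b j) - algebraMap k F a) *
          (x - algebraMap k F a)) := by
      have h7 : ((j : ℕ) : F) * algebraMap k F δ =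
          (algebraMap k F (b j) - algebraMap k F a)⁻¹ - algebraMap k F z := by rw [h2]; ring
      have h8 : ((j : ℕ) : F) = ((algebraMap k F (b j) - algebraMap k F a)⁻¹ -
          algebraMap k F z) / algebraMap k F δ := by
        rw [← h7]
        field_simp
      rw [h8, hu]
      field_simp
      ring
    rw [h3, hx₀]
    have h9 : u⁻¹ - (((j : ℕ) : F) + 1)⁻¹ = (((j : ℕ) : F) + 1)⁻¹ *
        (((((j : ℕ) : F) + 1) - u) / u) := by
      field_simp
    rw [h9]
    congr 1
    have h10 : (((j : ℕ) : F) + 1) - u = (x - algebraMap k F (b j)) /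
        (algebraMap k F δ * (algebraMap k F (b j) - algebraMap k F a) *
          (x - algebraMap k F a)) := by
      rw [h6]
      ring
    rw [h10, div_div]
  have hsqr : ∀ j j' : Fin 4, ∃ q : L, q ^ 2 = algebraMap F L
      ((x₀ - algebraMap k F (algebraMap ℚ k (cG j.succ))) *
        (x₀ - algebraMap k F (algebraMap ℚ k (cG j'.succ))) *
        algebraMap k F (algebraMap ℚ k ((cG 0 - cG j.succ) * (cG 0 - cG j'.succ)))) := by
    intro j j'
    obtain ⟨γ, h1, h2⟩ := hAt j j'
    let γL : L := ⟨γ, h1⟩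
    have hγ : γL ^ 2 = algebraMap F L ((x - algebraMap k F (b j)) * (x - algebraMap k F (b j')) *
        algebraMap k F ((a - b j) * (a - b j'))) := Subtype.ext h2
    have e1 : algebraMap k F (b j) - algebraMap k F a ≠ 0 := by
      rw [← map_sub, Ne, _root_.map_eq_zero, sub_eq_zero]
      exact hb j
    have e2 : algebraMap k F (b j') - algebraMap k F a ≠ 0 := by
      rw [← map_sub, Ne, _root_.map_eq_zero, sub_eq_zero]
      exact hb j'
    refine ⟨γL * algebraMap F L (algebraMap k F (algebraMap ℚ k (cG j.succ * cG j'.succ)) /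
      (algebraMap k F δ * (algebraMap k F (b j) - algebraMap k F a) *
        (algebraMap k F (b j') - algebraMap k F a) * (x - algebraMap k F a) * u)), ?_⟩
    rw [mul_pow, hγ, ← map_pow, ← map_mul]
    congr 1
    rw [hdiff j, hdiff j', cG_zero]
    simp only [map_mul, map_sub, map_zero, zero_sub, map_neg]
    have h5 := hne a
    field_simp
    ring
  -- the small field
  let S₁ : IntermediateField ℚ L := IntermediateField.adjoin ℚ {algebraMap F L x₀}
  let F₁ : IntermediateField ℚ L := (algebraicClosure S₁ L).restrictScalars ℚ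
  have hm0 : algebraMap F L x₀ ∈ F₁ := (algebraicClosure S₁ L).algebraMap_mem
    ⟨algebraMap F L x₀, IntermediateField.mem_adjoin_simple_self ℚ _⟩
  let X₀ : F₁ := ⟨algebraMap F L x₀, hm0⟩
  have hX₀ : Transcendental ℚ X₀ := by
    intro h
    exact hxQ (h.algebraMap (A := L))
  have hcst : ∀ q : ℚ, algebraMap F L (algebraMap k F (algebraMap ℚ k q)) = algebraMap ℚ L q := by
    intro q
    rw [← IsScalarTower.algebraMap_apply k F L]
    exact (IsScalarTower.algebraMap_apply ℚ k L q).symm
  have hm1 : ∀ (j j' : Fin 4) (q : L), q ^ 2 = algebraMap F L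
      ((x₀ - algebraMap k F (algebraMap ℚ k (cG j.succ))) *
        (x₀ - algebraMap k F (algebraMap ℚ k (cG j'.succ))) *
        algebraMap k F (algebraMap ℚ k ((cG 0 - cG j.succ) * (cG 0 - cG j'.succ)))) → q ∈ F₁ := by
    intro j j' q hq
    have hS : ∀ c : ℚ, algebraMap F L (x₀ - algebraMap k F (algebraMap ℚ k c)) ∈ S₁ := by
      intro c
      rw [map_sub, hcst]
      exact sub_mem (IntermediateField.mem_adjoin_simple_self ℚ _) (S₁.algebraMap_mem c)
    have hS' : q ^ 2 ∈ S₁ := by
      rw [hq, map_mul, map_mul, hcst]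
      exact mul_mem (mul_mem (hS _) (hS _)) (S₁.algebraMap_mem _)
    have h3 : IsAlgebraic S₁ (q ^ 2) := isAlgebraic_algebraMap (⟨q ^ 2, hS'⟩ : S₁)
    exact mem_algebraicClosure_iff.2 (h3.of_pow two_pos)
  have hsq : ∀ l l' : Fin 5, l ≠ 0 → l' ≠ 0 → ∃ q : F₁, q ^ 2 = (X₀ - algebraMap ℚ F₁ (cG l)) *
      (X₀ - algebraMap ℚ F₁ (cG l')) * algebraMap ℚ F₁ ((cG 0 - cG l) * (cG 0 - cG l')) := by
    intro l l' hl hl'
    obtain ⟨j, rfl⟩ := Fin.exists_succ_eq.2 hl
    obtain ⟨j', rfl⟩ := Fin.exists_succ_eq.2 hl'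
    obtain ⟨q, hq⟩ := hsqr j j'
    refine ⟨⟨q, hm1 j j' q hq⟩, Subtype.ext ?_⟩
    rw [map_mul, map_mul, map_sub, map_sub, hcst, hcst, hcst] at hq
    exact hq
  have hF₁ : Algebra.IsAlgebraic (IntermediateField.adjoin ℚ {X₀}) F₁ := by
    let fe : IntermediateField.adjoin ℚ {X₀} ≃ₐ[ℚ] S₁ :=
      (IntermediateField.liftAlgEquiv (IntermediateField.adjoin ℚ {X₀})).trans
        (IntermediateField.equivOfEq (IntermediateField.lift_adjoin_simple ℚ F₁ X₀))
    let g : F₁ →+* algebraicClosure S₁ L := RingHom.id _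
    exact Algebra.IsAlgebraic.of_ringHom_of_comp_eq (R := IntermediateField.adjoin ℚ {X₀})
      (A := F₁) (S := S₁) (B := algebraicClosure S₁ L) fe g fe.surjective (fun _ _ h => h) rfl
  have hE : AllGeo ℚ F₁ X₀ {0} := gam_geo F₁ X₀ hX₀ hF₁ hsq
  -- the local values
  choose pl hpl using fun i : Emb k => koe_emb hKOE s i
  have hv0 : ∀ i, (pl i).val (algebraMap F Ω x₀) 0 := by
    intro i
    have h1 := loc_emb hLOC n t ht (algebraMap F₁ L) X₀ {0} hE hxL (sL s) i (pl i) (hpl i)
    rw [Finset.prod_singleton, map_zero, map_zero, sub_zero] at h1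
    exact h1
  have hva : ∀ i, (pl i).val (algebraMap F Ω (x - algebraMap k F a)) 0 := by
    intro i
    have hc : ∀ c : k, (pl i).val (algebraMap F Ω (algebraMap k F c)) (algebraMap k (EC i) c) := by
      intro c
      rw [← IsScalarTower.algebraMap_apply k F Ω]
      exact Plc.val_alg c
    have h1 : (pl i).val (algebraMap F Ω ((1 - x₀) * algebraMap k F δ + algebraMap k F z * x₀))
        ((1 - 0) * algebraMap k (EC i) δ + algebraMap k (EC i) z * 0) := by
      rw [map_add, map_mul, map_mul, map_sub, map_one]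
      exact ((Plc.val_one.sub (hv0 i)).mul (hc δ)).add ((hc z).mul (hv0 i))
    rw [sub_zero, one_mul, mul_zero, add_zero] at h1
    have h2 := (hv0 i).mul (h1.inv ((_root_.map_ne_zero _).2 hδ))
    rw [zero_mul] at h2
    have h3 : x - algebraMap k F a =
        x₀ * ((1 - x₀) * algebraMap k F δ + algebraMap k F z * x₀)⁻¹ := by
      conv_lhs => rw [hxx]
      rw [div_eq_mul_inv]
      ring
    rw [h3, map_mul, map_inv₀ (algebraMap F Ω) ((1 - x₀) * algebraMap k F δ +
      algebraMap k F z * x₀)]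
    exact h2
  obtain ⟨O, h1, h2, h3⟩ := ult k F Ω B (Emb k) (fun i => EL i) (fun i => EC i)
    (obs_emb hOBS n k B t ht) (two_div hOBS n k B t ht) ⟨x, hx, hF⟩ s pl (fun i => hpl i)
    (x - algebraMap k F a) (hne a) hva
  exact ⟨O, h1, h2, h3⟩

end Pool.Agent.Zk12.GT
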