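import Mathlib
import Pool.Agent.Zk12.GT.Att

/-!
# Birational sections of the curves `t_0 y² = ∏ (x - e_i)` over `ℚ(t_0, …, t_n)`: the assembly
-/

set_option autoImplicit false
set_option linter.all false

open Polynomial IntermediateField

namespace Pool.Agent.Zk12.GT

open Pool.Agent.TH954 Pool.Agent.Zk12.FG

attribute [-instance] DivisionRing.toRatAlgebra SubfieldClass.instSMulRat
attribute [local instance 1] DivisionRing.toRatAlgebra

/-- the condition `CrossRatio` over a field -/
def CrossRatioK {K k₁ : Type} [Field k₁] (e : K → k₁) : Prop :=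
  ∀ i j, i ≠ j → ∃ l l', l ≠ i ∧ l ≠ j ∧ l' ≠ i ∧ l' ≠ j ∧
    ¬ IsSquare ((e i - e l) * (e i - e l') * ((e j - e l) * (e j - e l')))

/-- the condition `Progressions` over a field -/
def ProgressionsK {K k₁ : Type} [Field k₁] (e : K → k₁) : Prop :=
  ∀ i, ∃ (l : Fin 4 → K) (z δ : k₁), δ ≠ 0 ∧ (∀ j, l j ≠ i) ∧
    ∀ j : Fin 4, (e (l j) - e i)⁻¹ = z + (j : ℕ) * δ

/-- the field `k₁(t₀)` is a field of rational functions in one variable more -/
theorem ratFn_cons {n : ℕ} {k₁ k : Type} [Field k₁] [Field k] [Algebra ℚ k₁] [Algebra k₁ k]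
    [Algebra ℚ k] [IsScalarTower ℚ k₁ k] {t : Fin n → k₁} (ht : RatFn ℚ t) {t₀ : k}
    (h1 : Transcendental k₁ t₀) (h2 : IntermediateField.adjoin k₁ {t₀} = ⊤) :
    RatFn ℚ (Fin.cons t₀ (fun i => algebraMap k₁ k (t i)) : Fin (n + 1) → k) := by
  constructor
  · have hy : AlgebraicIndependent k₁ (fun _ : Unit => t₀) :=
      algebraicIndependent_unique_type_iff.2 h1
    have h3 := AlgebraicIndependent.sumElim_comp ht.1 hy
    let g : Fin (n + 1) → Unit ⊕ Fin n := Fin.cases (Sum.inl ()) Sum.inr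
    have hg : Function.Injective g := by
      intro a b hab
      induction a using Fin.cases with
      | zero =>
        induction b using Fin.cases with
        | zero => rfl
        | succ b => simp [g] at hab
      | succ a =>
        induction b using Fin.cases with
        | zero => simp [g] at hab
        | succ b =>
          simp only [g, Fin.cases_succ, Sum.inr.injEq] at hab
          rw [hab]
    have h4 := h3.comp g hg
    have h5 : (Sum.elim (fun _ : Unit => t₀) (⇑(algebraMap k₁ k) ∘ t)) ∘ g =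
        (Fin.cons t₀ (fun i => algebraMap k₁ k (t i)) : Fin (n + 1) → k) := by
      funext i
      induction i using Fin.cases with
      | zero => rfl
      | succ i => rfl
    rw [← h5]
    exact h4
  · set E : IntermediateField ℚ k := IntermediateField.adjoin ℚ
      (Set.range (Fin.cons t₀ (fun i => algebraMap k₁ k (t i)) : Fin (n + 1) → k)) with hE
    have hmem : ∀ i, (Fin.cons t₀ (fun i => algebraMap k₁ k (t i)) : Fin (n + 1) → k) i ∈ E :=
      fun i => IntermediateField.subset_adjoin _ _ ⟨i, rfl⟩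
    have hk₁ : ∀ c : k₁, algebraMap k₁ k c ∈ E := by
      intro c
      have h3 : (⊤ : IntermediateField ℚ k₁) ≤ E.comap (IsScalarTower.toAlgHom ℚ k₁ k) := by
        rw [← ht.2, IntermediateField.adjoin_le_iff]
        rintro _ ⟨i, rfl⟩
        exact hmem i.succ
      exact h3 IntermediateField.mem_top
    have h4 : (⊤ : IntermediateField k₁ k) ≤ E.toSubfield.toIntermediateField hk₁ := by
      rw [← h2, IntermediateField.adjoin_le_iff]
      rintro _ rfl
      exact hmem 0
    rw [eq_top_iff]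
    intro c _
    exact h4 (IntermediateField.mem_top (x := c))

/-- elements of the fixed field whose square is a constant are constants -/
theorem fixed_sq {k F Ω B : Type} [Field k] [CharZero k] [Field F] [Field Ω] [Field B] [Algebra k F]
    [Algebra F Ω] [Algebra k Ω] [Algebra k B] [IsScalarTower k F Ω] [IsAlgClosure F Ω]
    [IsAlgClosure k B] (s : GalSection k F Ω B) {w : Ω} (hw : ∀ g, s.s g w = w) {c : k}
    (hc : w ^ 2 = algebraMap k Ω c) : ∃ d : k, c = d ^ 2 := by
  haveI : IsAlgClosed B := IsAlgClosure.isAlgClosed k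
  haveI : Algebra.IsAlgebraic k B := IsAlgClosure.isAlgebraic
  haveI : Normal k B := IsAlgClosure.normal k B
  haveI : IsGalois k B := { }
  obtain ⟨β, hβ⟩ := IsAlgClosed.exists_pow_nat_eq (algebraMap k B c) (n := 2) two_pos
  have h1 : w ^ 2 = s.j β ^ 2 := by
    rw [hc, ← map_pow, hβ, s.j.commutes]
  have h2 : ∃ β' : B, w = s.j β' ∧ β' ^ 2 = algebraMap k B c := by
    rcases sq_eq_sq_iff_eq_or_eq_neg.1 h1 with h | h
    · exact ⟨β, h, hβ⟩
    · exact ⟨-β, by rw [h, map_neg], by rw [neg_sq, hβ]⟩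
  obtain ⟨β', h3, h4⟩ := h2
  have h5 : β' ∈ (⊥ : IntermediateField k B) := by
    rw [InfiniteGalois.mem_bot_iff_fixed]
    intro g
    have h6 := hw g
    rw [h3, s.sec] at h6
    exact s.j.injective h6
  obtain ⟨d, rfl⟩ := IntermediateField.mem_bot.1 h5
  refine ⟨d, (algebraMap k B).injective ?_⟩
  rw [map_pow]
  exact h4.symm

/-- **the theorem, from its parts** -/
theorem gt_of (hOBS : S_OBS) (hKOE : S_KOEP) (hLOC : S_LOCV) (hSYM : S_SYM) (hPOL : S_POL)
    (hSTAR : S_STAR) (n : ℕ) (k₁ k F Ω B : Type) [Field k₁] [Field k] [Field F] [Field Ω] [Field B]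
    [Algebra ℚ k₁] [Algebra k₁ k] [Algebra k F] [Algebra F Ω] [Algebra k Ω] [Algebra k B]
    [IsScalarTower k F Ω] [IsAlgClosure F Ω] [IsAlgClosure k B] (t : Fin n → k₁)
    (ht1 : AlgebraicIndependent ℚ t) (ht2 : IntermediateField.adjoin ℚ (Set.range t) = ⊤) (t₀ : k)
    (ht3 : Transcendental k₁ t₀) (ht4 : IntermediateField.adjoin k₁ {t₀} = ⊤)
    {K : Type} [Fintype K] (e : K → k₁) (he : Function.Injective e)
    (hev : Even (Fintype.card K)) (hCR : CrossRatioK e) (hPr : ProgressionsK e)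
    (x y : F) (hx : Transcendental k x)
    (hF : Algebra.IsAlgebraic (IntermediateField.adjoin k {x}) F)
    (hxy : algebraMap k F t₀ * y ^ 2 = ∏ i, (x - algebraMap k F (algebraMap k₁ k (e i))))
    (s : GalSection k F Ω B) :
    ∃ i, ∃ O : ValuationSubring F, (x - algebraMap k F (algebraMap k₁ k (e i)))⁻¹ ∉ O ∧
      s.ArisesFrom O ∧ ∀ O' : ValuationSubring F, s.ArisesFrom O' → O' = O := by
  classical
  haveI : CharZero k₁ := algebraRat.charZero k₁
  haveI : CharZero k := charZero_of_injective_algebraMap (algebraMap k₁ k).injective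
  haveI : CharZero F := charZero_of_injective_algebraMap (algebraMap k F).injective
  haveI : CharZero Ω := charZero_of_injective_algebraMap (algebraMap F Ω).injective
  letI : Algebra ℚ k := ((algebraMap k₁ k).comp (algebraMap ℚ k₁)).toAlgebra
  haveI : IsScalarTower ℚ k₁ k := IsScalarTower.of_algebraMap_eq fun _ => rfl
  have hne : ∀ c : k, x - algebraMap k F c ≠ 0 := by
    intro c h
    apply hx
    rw [sub_eq_zero.1 h]
    exact isAlgebraic_algebraMap c
  obtain ⟨c, hc0, hcb, hcr⟩ := hSYM k F Ω B s x (fun c h => hne c (sub_eq_zero.2 h))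
  choose b hb1 hb2 using hcb
  have hb0 : ∀ β, b β ≠ 0 := by
    intro β h
    have h1 := hb2 β
    rw [h, zero_pow two_ne_zero, mul_zero, _root_.map_eq_zero] at h1
    exact hne β h1
  -- the product of the classes
  have hprod : ∃ q : k, ∏ m, c (algebraMap k₁ k (e m)) = t₀ * q ^ 2 := by
    have ht₀ : t₀ ≠ 0 := by
      rintro rfl
      exact ht3 isAlgebraic_zero
    have hprodb : ∏ m, b (algebraMap k₁ k (e m)) ≠ 0 := Finset.prod_ne_zero_iff.2 fun m _ => hb0 _
    have h1 := congrArg (algebraMap F Ω) hxy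
    rw [map_mul, map_prod, map_pow] at h1
    rw [Finset.prod_congr rfl fun m _ => hb2 (algebraMap k₁ k (e m)), Finset.prod_mul_distrib,
      Finset.prod_pow, ← map_prod, ← IsScalarTower.algebraMap_apply] at h1
    have hw : ∀ g, s.s g (algebraMap F Ω y / ∏ m, b (algebraMap k₁ k (e m))) =
        algebraMap F Ω y / ∏ m, b (algebraMap k₁ k (e m)) := by
      intro g
      rw [map_div₀, map_prod, (s.s g).commutes]
      congr 1
      exact Finset.prod_congr rfl fun m _ => hb1 _ g
    have ht₀Ω : algebraMap k Ω t₀ ≠ 0 := (_root_.map_ne_zero _).2 ht₀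
    obtain ⟨d, hd⟩ := fixed_sq s hw (c := (∏ m, c (algebraMap k₁ k (e m))) / t₀) (by
      rw [div_pow, map_div₀, div_eq_div_iff (pow_ne_zero 2 hprodb) ht₀Ω, mul_comm, h1])
    refine ⟨d, ?_⟩
    rw [← hd]
    field_simp
  obtain ⟨i, hi⟩ := hPOL k₁ k (hSTAR n k₁ t ⟨ht1, ht2⟩) t₀ ht3 ht4 K e he hev hCR
    (fun β => c (algebraMap k₁ k β)) (fun β => hc0 _) hprod (fun β γ hβγ => by
      obtain ⟨u, v, w, h1, h2⟩ := hcr (algebraMap k₁ k β) (algebraMap k₁ k γ)
        (fun h => hβγ ((algebraMap k₁ k).injective h))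
      refine ⟨u, v, w, h1, ?_⟩
      rw [map_sub, map_sub]
      exact h2)
  obtain ⟨l, z, δ, hδ, hl, hAP⟩ := hPr i
  obtain ⟨O, h1, h2, h3⟩ := att_geo hOBS hKOE hLOC (n + 1) k F Ω B
    (Fin.cons t₀ (fun i => algebraMap k₁ k (t i))) (ratFn_cons ⟨ht1, ht2⟩ ht3 ht4) s x hx hF
    (algebraMap k₁ k (e i)) (fun j => algebraMap k₁ k (e (l j)))
    (fun j h => hl j (he ((algebraMap k₁ k).injective h))) (algebraMap k₁ k z)
    (algebraMap k₁ k δ) ((_root_.map_ne_zero _).2 hδ) (fun j => by
      rw [← map_sub, ← map_inv₀, hAP j]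
      simp only [map_add, map_mul, map_natCast]) (fun j j' => by
      obtain ⟨r, hr⟩ := hi (l j) (l j') (hl j) (hl j')
      refine ⟨b (algebraMap k₁ k (e (l j))) * b (algebraMap k₁ k (e (l j'))) *
        algebraMap k Ω r, fun g => ?_, ?_⟩
      · rw [map_mul, map_mul, hb1, hb1, IsScalarTower.algebraMap_apply k F Ω, (s.s g).commutes]
      · rw [map_mul, map_mul, hb2, hb2, ← IsScalarTower.algebraMap_apply, mul_pow, mul_pow,
          ← map_pow, pow_two r, ← hr]
        simp only [map_mul, map_sub]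
        ring)
  exact ⟨i, O, h1, h2, h3⟩

end Pool.Agent.Zk12.GT
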